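import Mathlib
import Pool.Agent.W169.AF.Link
import Pool.Agent.W169.AF.Zeros2
import Pool.Agent.W790.AF.ZN
import Pool.Agent.W237.AF.Det

set_option autoImplicit false

/-!
# Multiplicities and clusters of zeros of Dirichlet L-functions at every height
-/

namespace Pool.Agent.Results.MP_f259ea_nt.MultiplicityTail

/-- The pairs `(q, χ)`, `2 ≤ q ≤ Q`, with `χ` a primitive Dirichlet character modulo `q`. -/
def Primitive (Q : ℕ) : Set (Σ q : ℕ, DirichletCharacter ℂ q) :=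
  {p | 2 ≤ p.1 ∧ p.1 ≤ Q ∧ p.2.IsPrimitive}

/-- For every `A` with `R ≤ A ≤ (log Q) / 4` the disc with centre `1/2 + i t` and radius `A / log Q`
contains at most `K A` zeros of `L(s, χ)`, counted with multiplicity. -/
def FewZeros (K : ℝ) (Q : ℕ) (R t : ℝ) (p : Σ q : ℕ, DirichletCharacter ℂ q) : Prop :=
  ∃ _ : NeZero p.1, ∀ A : ℝ, R ≤ A → A ≤ Real.log Q / 4 → ∀ S : Finset ℂ,
    (∀ s ∈ S, ‖s - (1 / 2 + Complex.I * t)‖ ≤ A / Real.log Q) →
      ∑ s ∈ S, (analyticOrderNatAt (DirichletCharacter.LFunction p.2) s : ℝ) ≤ K * A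

/-- **Theorem.** There are `C, c, K > 0` such that for all `Q ≥ 3`, all `R ≥ 1` and all heights `t`
with `|t| ≤ Q^c`: for all but a proportion `C exp (- c R)` of all primitive Dirichlet characters `χ`
of conductor `q`, `2 ≤ q ≤ Q`, every disc with centre `1/2 + i t` and radius `A / log Q`,
`R ≤ A ≤ (log Q) / 4`, contains at most `K A` zeros of `L(s, χ)`, counted with multiplicity. -/
theorem result : ∃ C c K : ℝ, 0 < C ∧ 0 < c ∧ 0 < K ∧ ∀ (Q : ℕ) (R t : ℝ), 3 ≤ Q → 1 ≤ R →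
    |t| ≤ (Q : ℝ) ^ c → (Primitive Q).Finite ∧
      ((Primitive Q ∩ {p | ¬ FewZeros K Q R t p}).ncard : ℝ) ≤
        C * Real.exp (-(c * R)) * ((Primitive Q).ncard : ℝ) := by
  obtain ⟨C, c, K0, hC, hc, hK0, h⟩ := Pool.Agent.W169.AF.zero_all Pool.Agent.W169.AF.nqw_fin
    Pool.Agent.W790.AF.zn Pool.Agent.W169.AF.sym (Pool.Agent.W237.AF.det Pool.Agent.W169.AF.sym)
  obtain ⟨K, hK, hk⟩ := Pool.Agent.W169.AF.prop_of Pool.Agent.W169.AF.pcn
  refine ⟨K * C, c, K0, by positivity, hc, hK0, fun Q R t hQ hR ht => ?_⟩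
  obtain ⟨h1, h2⟩ := hk Q (fun q χ => ¬ Pool.Agent.W169.AF.ZeroAll K0 Q R t q χ) C
    (Real.exp (-(c * R))) hQ hC.le (Real.exp_pos _).le (h Q R t (by omega) hR ht)
  refine ⟨h1, le_trans ?_ h2⟩
  have hsub : (Primitive Q ∩ {p | ¬ FewZeros K0 Q R t p}) ⊆
      (Pool.Agent.W169.AF.Fam Q ∩
        {p | ¬ Pool.Agent.W169.AF.ZeroAll K0 Q R t p.1 p.2}) := by
    rintro ⟨q, χ⟩ ⟨hp1, hp2⟩
    refine ⟨hp1, fun hp3 => hp2 ?_⟩
    have hq0 : q ≠ 0 := by
      have : 2 ≤ q := hp1.1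
      omega
    have hN : NeZero q := ⟨hq0⟩
    refine ⟨hN, fun A hA1 hA2 S hS => ?_⟩
    have e : Pool.Agent.W169.AF.LF q χ = DirichletCharacter.LFunction χ := by
      funext s
      unfold Pool.Agent.W169.AF.LF
      rw [dif_neg hq0]
    have h3 := hp3 A hA1 hA2 S hS
    simp only [e] at h3
    exact h3
  exact_mod_cast Set.ncard_le_ncard hsub (h1.subset Set.inter_subset_left)

end Pool.Agent.Results.MP_f259ea_nt.MultiplicityTail
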