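import Pool.Agent.W69.DZ.All
import Pool.Agent.H370R2.DirGood

/-!
# Distinct zeros of Dirichlet L-functions in the right half of the strip, in every short interval

Unconditionally, for every modulus `q ≥ 1` and every primitive character `χ` modulo `q`, every
fixed `0 < h ≤ 1` and `ε > 0`, all large `T` and all `T ^ h ≤ H ≤ T`: the zeros of `L(s, χ)` with
ordinate in `(T, T + H]` and real part at least `1/2`, counted without multiplicity, number at
least half of `(3 - c(h) - ε) N(T, T + H) + E(T, T + H)`, `E` the excess multiplicity; every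
distinct zero off the line contributes `1/2` to the number of distinct zeros beyond this bound.
-/

open Filter Topology Complex

namespace Pool.Agent.Results.MP_f259ea_nt.RightHalfShort

/-- the nontrivial zeros of `L(s, χ)` with ordinate in `(T₁, T₂]` -/
def zeros {q : ℕ} [NeZero q] (χ : DirichletCharacter ℂ q) (T₁ T₂ : ℝ) : Set ℂ :=
  {s : ℂ | DirichletCharacter.LFunction χ s = 0 ∧ 0 < s.re ∧ s.re < 1 ∧ T₁ < s.im ∧ s.im ≤ T₂}

/-- the multiplicity of a zero -/
noncomputable def mult {q : ℕ} [NeZero q] (χ : DirichletCharacter ℂ q) (s : ℂ) : ℕ :=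
  analyticOrderNatAt (DirichletCharacter.LFunction χ) s

/-- the number of nontrivial zeros with ordinate in `(T₁, T₂]`, counted with multiplicity -/
noncomputable def N {q : ℕ} [NeZero q] (χ : DirichletCharacter ℂ q) (T₁ T₂ : ℝ) : ℕ :=
  ∑ᶠ s ∈ zeros χ T₁ T₂, mult χ s

/-- the number of distinct nontrivial zeros with ordinate in `(T₁, T₂]` -/
noncomputable def Nd {q : ℕ} [NeZero q] (χ : DirichletCharacter ℂ q) (T₁ T₂ : ℝ) : ℕ :=
  (zeros χ T₁ T₂).ncard

/-- the number of distinct zeros with real part at least `1/2` -/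
noncomputable def Nright {q : ℕ} [NeZero q] (χ : DirichletCharacter ℂ q) (T₁ T₂ : ℝ) : ℕ :=
  {s : ℂ | s ∈ zeros χ T₁ T₂ ∧ 1 / 2 ≤ s.re}.ncard

/-- the number of distinct zeros off the critical line -/
noncomputable def Noff {q : ℕ} [NeZero q] (χ : DirichletCharacter ℂ q) (T₁ T₂ : ℝ) : ℕ :=
  {s : ℂ | s ∈ zeros χ T₁ T₂ ∧ s.re ≠ 1 / 2}.ncard

/-- the excess multiplicity: a zero of multiplicity `m` counts `max (m - 2) 0` if it is on the
critical line and `m - 1` if it is off the line (subtraction of natural numbers) -/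
noncomputable def excess {q : ℕ} [NeZero q] (χ : DirichletCharacter ℂ q) (T₁ T₂ : ℝ) : ℕ :=
  ∑ᶠ s ∈ zeros χ T₁ T₂, (if s.re = 1 / 2 then mult χ s - 2 else mult χ s - 1)

/-- the constant `c(h) = h/2 + cot(h/√2)/√2`; `c(1) = c_MT⁻¹` -/
noncomputable def c (h : ℝ) : ℝ := h / 2 + Real.cot (h / Real.sqrt 2) / Real.sqrt 2

theorem zeros_eq {q : ℕ} [NeZero q] (χ : DirichletCharacter ℂ q) (T₁ T₂ : ℝ) :
    zeros χ T₁ T₂ = H370.zset (DirichletCharacter.LFunction χ) T₁ T₂ := by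
  ext s
  simp only [zeros, H370.zset, Set.mem_ofPred_eq]
  tauto

/-- the sets of zeros that are counted are finite -/
theorem zeros_finite {q : ℕ} [NeZero q] (χ : DirichletCharacter ℂ q) (hχ : χ.IsPrimitive)
    (T₁ T₂ : ℝ) (h : 0 < T₁) : (zeros χ T₁ T₂).Finite := by
  rw [zeros_eq]
  exact H370.zset_finite' (H370.good_dirichlet χ hχ) T₁ T₂ h

theorem N_eq {q : ℕ} [NeZero q] (χ : DirichletCharacter ℂ q) (T₁ T₂ : ℝ) :
    N χ T₁ T₂ = H370.NN (DirichletCharacter.LFunction χ) T₁ T₂ := by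
  unfold N H370.NN
  rw [zeros_eq]
  rfl

theorem excess_eq {q : ℕ} [NeZero q] (χ : DirichletCharacter ℂ q) (T₁ T₂ : ℝ) :
    excess χ T₁ T₂ = W69DZ.EX (DirichletCharacter.LFunction χ) T₁ T₂ := by
  unfold excess W69DZ.EX
  rw [zeros_eq]
  rfl

theorem Nd_eq {q : ℕ} [NeZero q] (χ : DirichletCharacter ℂ q) (T₁ T₂ : ℝ) :
    Nd χ T₁ T₂ = H370.Nd (DirichletCharacter.LFunction χ) T₁ T₂ := by
  unfold Nd H370.Nd
  rw [zeros_eq]

theorem Nright_eq {q : ℕ} [NeZero q] (χ : DirichletCharacter ℂ q) (T₁ T₂ : ℝ) :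
    Nright χ T₁ T₂ = W69DZ.NR (DirichletCharacter.LFunction χ) T₁ T₂ := by
  unfold Nright W69DZ.NR
  rw [zeros_eq]

theorem Noff_eq {q : ℕ} [NeZero q] (χ : DirichletCharacter ℂ q) (T₁ T₂ : ℝ) :
    Noff χ T₁ T₂ = W69DZ.NF (DirichletCharacter.LFunction χ) T₁ T₂ := by
  unfold Noff W69DZ.NF
  rw [zeros_eq]

/-- In every short interval the distinct zeros with real part at least `1/2` number at least
`((3 - c(h))/2 - ε) N + E/2`; the number of all distinct zeros exceeds this by half of the number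
of the distinct zeros off the line. -/
theorem result (q : ℕ) [NeZero q] (χ : DirichletCharacter ℂ q) (hχ : χ.IsPrimitive) :
    (∀ h ε : ℝ, 0 < h → h ≤ 1 → 0 < ε →
      ∃ T₀ : ℝ, ∀ T : ℝ, T₀ ≤ T → ∀ H : ℝ, T ^ h ≤ H → H ≤ T →
        ((3 - c h) / 2 - ε) * (N χ T (T + H) : ℝ) + (excess χ T (T + H) : ℝ) / 2 ≤
          (Nright χ T (T + H) : ℝ) ∧
        (Nd χ T (T + H) : ℝ) = (Nright χ T (T + H) : ℝ) + (Noff χ T (T + H) : ℝ) / 2) ∧
    ∀ h : ℝ, 0 < h → h ≤ 1 → c h ≤ 1 / h + h / 3 := by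
  refine ⟨fun h ε h0 h1 hε => ?_, H295SI.cc_le⟩
  obtain ⟨T0, hT1, hT0⟩ := W69DZ.short_all (H370.good_dirichlet χ hχ) h ε h0 h1 hε
  refine ⟨T0, fun T hT H hH1 hH2 => ?_⟩
  obtain ⟨-, h2, h3⟩ := hT0 T hT H hH1 hH2
  rw [N_eq, Nd_eq, Nright_eq, Noff_eq, excess_eq]
  exact ⟨h2, h3⟩

end Pool.Agent.Results.MP_f259ea_nt.RightHalfShort
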